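import Pool.Agent.Helper43.EV.Goals

/-!
# Project EV (MP_d4e2f9_lc), goal CYC: the cyclic factor
-/

set_option autoImplicit false

namespace Pool.Agent.Helper97.EV.CYC

open Pool.Agent.Helper43.EV

theorem t : Pool.Agent.Helper43.EV.CYC := by
  intro n hn
  haveI : NeZero n := ⟨by omega⟩
  have hc : CY (Multiplicative (ZMod n)) (⊤ : Subgroup (Multiplicative (ZMod n))) := by
    refine ⟨Multiplicative.ofAdd 1, Subgroup.mem_top _, fun τ _ => ?_⟩
    obtain ⟨j, hj⟩ := ZMod.intCast_surjective (Multiplicative.toAdd τ)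
    refine ⟨-j, ?_⟩
    apply Multiplicative.toAdd.injective
    rw [toAdd_mul, toAdd_zpow, toAdd_ofAdd, toAdd_one, ← hj, zsmul_one]
    push_cast
    ring
  have horb : ∀ v : ZMod n,
      n ≤ (MulAction.orbit (⊤ : Subgroup (Multiplicative (ZMod n))) v).ncard := by
    intro v
    have h1 : MulAction.orbit (⊤ : Subgroup (Multiplicative (ZMod n))) v = Set.univ := by
      refine Set.eq_univ_of_forall fun x => ?_
      refine ⟨⟨Multiplicative.ofAdd (x - v), Subgroup.mem_top _⟩, ?_⟩
      show (x - v) + v = x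
      exact sub_add_cancel x v
    rw [h1, Set.ncard_univ, Nat.card_zmod]
  refine Fz.sub (B := ∅ ∪ {v | n ≤ (MulAction.orbit
    (⊤ : Subgroup (Multiplicative (ZMod n))) v).ncard}) (fun v _ => Or.inr (horb v))
    (Fz.ext ⊤ hc (fun g _ v hv => hv.elim) Fz.empty)

end Pool.Agent.Helper97.EV.CYC
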